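import Pool.Agent.H19.GrD

/-! The product of a Grothendieck space and a separable (e.g. countable) space is Grothendieck. -/

namespace Pool.Agent.Results.MP_0f8365_gt.Separable

open Pool.Agent.H19.Gr

universe u v

theorem result (X : Type u) (Y : Type v) [TopologicalSpace X] [T35Space X] [TopologicalSpace Y]
    [T35Space Y] (hX : Grothendieck X) (hY : ∃ D : Set Y, D.Countable ∧ Dense D) :
    Grothendieck (X × Y) ∧ WeaklyGrothendieck (X × Y) := by
  haveI : TopologicalSpace.SeparableSpace Y := ⟨hY⟩
  exact ⟨groth_prod_sep hX, wg_of_groth (groth_prod_sep hX)⟩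

end Pool.Agent.Results.MP_0f8365_gt.Separable
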